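import Pool.Agent.Y995.LG.Stm

/-!
# Lattice paths close to a curve crossing a rectangle cross the lattice rectangle (LG-EXIT)

Author helper584, for project LG of helper995.
-/

set_option autoImplicit false
set_option maxHeartbeats 4000000


namespace Pool.Agent.Y584.LG

open Pool.Agent.Y995.LG Set H984P H984N

/-! ## the exit lemma -/

theorem per_cont {c : C(unitInterval, ℂ)} (h : c 0 = c 1) : Continuous (per c) := by
  have h1 : Continuous ((IccExtend (zero_le_one : (0 : ℝ) ≤ 1) c) ∘ Int.fract) := by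
    apply ContinuousOn.comp_fract''
    · exact (c.continuous.Icc_extend' ).continuousOn
    · rw [IccExtend_left, IccExtend_right]
      exact h
  have h2 : per c = (IccExtend (zero_le_one : (0 : ℝ) ≤ 1) c) ∘ Int.fract := by
    funext t
    rw [Function.comp, IccExtend_of_mem _ _ ⟨Int.fract_nonneg t, (Int.fract_lt_one t).le⟩]
    rfl
  rw [h2]
  exact h1

/-- outside of the closed rectangle with a margin -/
def PO (κ : Loc) (m : ℝ) (z : ℂ) : Prop :=
  z.re < κ.l - m ∨ κ.r + m < z.re ∨ z.im < κ.b - m ∨ κ.h + m < z.im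

/-- inside of the rectangle with a margin -/
def QI (κ : Loc) (m : ℝ) (z : ℂ) : Prop :=
  κ.l + m < z.re ∧ z.re < κ.r - m ∧ κ.b + m < z.im ∧ z.im < κ.h - m

theorem isOpen_PO (κ : Loc) (m : ℝ) : IsOpen {z | PO κ m z} :=
  (isOpen_lt Complex.continuous_re continuous_const).union
    ((isOpen_lt continuous_const Complex.continuous_re).union
    ((isOpen_lt Complex.continuous_im continuous_const).union
    (isOpen_lt continuous_const Complex.continuous_im)))

theorem PO_near {κ : Loc} {m ρ : ℝ} {z w : ℂ} (h : PO κ m z) (hm : 2 * ρ ≤ m)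
    (hd : dist w z < ρ) : PO κ ρ w := by
  have h1 := (Complex.abs_re_le_norm (w - z)).trans_lt (by rwa [← dist_eq_norm])
  have h2 := (Complex.abs_im_le_norm (w - z)).trans_lt (by rwa [← dist_eq_norm])
  rw [Complex.sub_re, abs_lt] at h1
  rw [Complex.sub_im, abs_lt] at h2
  rcases h with h | h | h | h
  · exact Or.inl (by linarith [h1.2])
  · exact Or.inr (Or.inl (by linarith [h1.1]))
  · exact Or.inr (Or.inr (Or.inl (by linarith [h2.2])))
  · exact Or.inr (Or.inr (Or.inr (by linarith [h2.1])))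

theorem QI_near {κ : Loc} {m ρ : ℝ} {z w : ℂ} (h : QI κ m z) (hm : 2 * ρ ≤ m)
    (hd : dist w z < ρ) : QI κ ρ w := by
  have h1 := (Complex.abs_re_le_norm (w - z)).trans_lt (by rwa [← dist_eq_norm])
  have h2 := (Complex.abs_im_le_norm (w - z)).trans_lt (by rwa [← dist_eq_norm])
  rw [Complex.sub_re, abs_lt] at h1
  rw [Complex.sub_im, abs_lt] at h2
  obtain ⟨k1, k2, k3, k4⟩ := h
  exact ⟨by linarith [h1.1], by linarith [h1.2], by linarith [h2.1], by linarith [h2.2]⟩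

theorem bdL {κ : Loc} {z : ℂ} (h : z ∈ κ.left ∨ z ∈ κ.right) :
    (κ.l ≤ z.re ∧ z.re ≤ κ.r ∧ κ.b ≤ z.im ∧ z.im ≤ κ.h) ∧
      (z.re = κ.l ∨ z.re = κ.r ∨ z.im = κ.b ∨ z.im = κ.h) := by
  have e1 := κ.lα
  have e2 := κ.αr
  have e3 := κ.lβ
  have e4 := κ.βr
  have e5 := κ.bh
  rcases h with (⟨k1, k2, k3⟩ | ⟨k1, k2, k3⟩ | ⟨k1, k2, k3⟩) |
    (⟨k1, k2, k3⟩ | ⟨k1, k2, k3⟩ | ⟨k1, k2, k3⟩)
  · exact ⟨⟨by linarith, by linarith, by linarith, by linarith⟩, Or.inl k1⟩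
  · exact ⟨⟨by linarith, by linarith, by linarith, by linarith⟩, Or.inr (Or.inr (Or.inr k1))⟩
  · exact ⟨⟨by linarith, by linarith, by linarith, by linarith⟩, Or.inr (Or.inr (Or.inl k1))⟩
  · exact ⟨⟨by linarith, by linarith, by linarith, by linarith⟩, Or.inr (Or.inl k1)⟩
  · exact ⟨⟨by linarith, by linarith, by linarith, by linarith⟩, Or.inr (Or.inr (Or.inr k1))⟩
  · exact ⟨⟨by linarith, by linarith, by linarith, by linarith⟩, Or.inr (Or.inr (Or.inl k1))⟩

/-- near a boundary point there is a time outside -/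
theorem near_out {κ : Loc} {C : ℝ → ℂ} (hg : GenBox κ C) {w : ℝ}
    (hw : C w ∈ κ.left ∨ C w ∈ κ.right) {δ : ℝ} (hδ : 0 < δ) :
    ∃ s, |s - w| < δ ∧ ∃ m, 0 < m ∧ PO κ m (C s) := by
  obtain ⟨g1, g2, g3, g4⟩ := hg
  rcases (bdL hw).2 with e | e | e | e
  · obtain ⟨s, h1, h2⟩ := (g1 w e δ hδ).1
    exact ⟨s, h1, (κ.l - (C s).re) / 2, by linarith, Or.inl (by linarith)⟩
  · obtain ⟨s, h1, h2⟩ := (g2 w e δ hδ).2
    exact ⟨s, h1, ((C s).re - κ.r) / 2, by linarith, Or.inr (Or.inl (by linarith))⟩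
  · obtain ⟨s, h1, h2⟩ := (g3 w e δ hδ).1
    exact ⟨s, h1, (κ.b - (C s).im) / 2, by linarith, Or.inr (Or.inr (Or.inl (by linarith)))⟩
  · obtain ⟨s, h1, h2⟩ := (g4 w e δ hδ).2
    exact ⟨s, h1, ((C s).im - κ.h) / 2, by linarith, Or.inr (Or.inr (Or.inr (by linarith)))⟩

theorem PO_not_op {κ : Loc} {m : ℝ} (hm : 0 < m) {z : ℂ} (h : PO κ m z) : z ∉ κ.op := by
  rintro ⟨k1, k2, k3, k4⟩
  rcases h with h | h | h | h <;> linarith

theorem PO_not_bd {κ : Loc} {m : ℝ} (hm : 0 < m) {z : ℂ} (h : PO κ m z) :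
    ¬ (z ∈ κ.left ∨ z ∈ κ.right) := by
  intro hz
  obtain ⟨⟨k1, k2, k3, k4⟩, -⟩ := bdL hz
  rcases h with h | h | h | h <;> linarith

/-- a margin on compact intervals -/
theorem margin {κ : Loc} {C : ℝ → ℂ} (hC : Continuous C) {a b : ℝ}
    (h : ∀ t ∈ Icc a b, C t ∈ κ.op) : ∃ m, 0 < m ∧ ∀ t ∈ Icc a b, QI κ m (C t) := by
  have hre := Complex.continuous_re.comp hC
  have him := Complex.continuous_im.comp hC
  have key : ∀ f : ℝ → ℝ, Continuous f → (∀ t ∈ Icc a b, 0 < f t) →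
      ∃ m, 0 < m ∧ ∀ t ∈ Icc a b, m ≤ f t := by
    intro f hf hpos
    exact isCompact_Icc.exists_forall_le' hf.continuousOn hpos
  obtain ⟨m1, p1, q1⟩ := key (fun t => (C t).re - κ.l) (hre.sub continuous_const)
    (fun t ht => by have := (h t ht).1; linarith)
  obtain ⟨m2, p2, q2⟩ := key (fun t => κ.r - (C t).re) (continuous_const.sub hre)
    (fun t ht => by have := (h t ht).2.1; linarith)
  obtain ⟨m3, p3, q3⟩ := key (fun t => (C t).im - κ.b) (him.sub continuous_const)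
    (fun t ht => by have := (h t ht).2.2.1; linarith)
  obtain ⟨m4, p4, q4⟩ := key (fun t => κ.h - (C t).im) (continuous_const.sub him)
    (fun t ht => by have := (h t ht).2.2.2; linarith)
  refine ⟨(min (min m1 m2) (min m3 m4)) / 2, by positivity, fun t ht => ?_⟩
  have r1 : min (min m1 m2) (min m3 m4) ≤ m1 := (min_le_left _ _).trans (min_le_left _ _)
  have r2 : min (min m1 m2) (min m3 m4) ≤ m2 := (min_le_left _ _).trans (min_le_right _ _)
  have r3 : min (min m1 m2) (min m3 m4) ≤ m3 := (min_le_right _ _).trans (min_le_left _ _)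
  have r4 : min (min m1 m2) (min m3 m4) ≤ m4 := (min_le_right _ _).trans (min_le_right _ _)
  have := q1 t ht
  have := q2 t ht
  have := q3 t ht
  have := q4 t ht
  exact ⟨by linarith, by linarith, by linarith, by linarith⟩

theorem poly_diam (f : ℕ → ℂ) (N : ℕ) (d : ℝ) (hf : ∀ j, ‖f (j + 1) - f j‖ ≤ d)
    (x y : unitInterval) : dist (H342T.poly f N x) (H342T.poly f N y) ≤ N * d := by
  rw [dist_eq_norm]
  change ‖(f 0 + ∑ j ∈ Finset.range N,
    ((max 0 (min 1 ((N : ℝ) * (x : ℝ) - j)) : ℝ) : ℂ) * (f (j + 1) - f j)) -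
    (f 0 + ∑ j ∈ Finset.range N,
    ((max 0 (min 1 ((N : ℝ) * (y : ℝ) - j)) : ℝ) : ℂ) * (f (j + 1) - f j))‖ ≤ _
  rw [add_sub_add_left_eq_sub, ← Finset.sum_sub_distrib]
  refine (norm_sum_le _ _).trans ?_
  have h1 : ∀ j ∈ Finset.range N, ‖((max 0 (min 1 ((N : ℝ) * (x : ℝ) - j)) : ℝ) : ℂ) *
      (f (j + 1) - f j) - ((max 0 (min 1 ((N : ℝ) * (y : ℝ) - j)) : ℝ) : ℂ) *
      (f (j + 1) - f j)‖ ≤ d := by
    intro j _
    rw [← sub_mul, norm_mul, ← Complex.ofReal_sub, Complex.norm_real, Real.norm_eq_abs]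
    have b1 : ∀ s : ℝ, 0 ≤ max 0 (min 1 s) ∧ max 0 (min 1 s) ≤ 1 := fun s =>
      ⟨le_max_left _ _, max_le zero_le_one (min_le_left _ _)⟩
    have b2 := b1 ((N : ℝ) * (x : ℝ) - j)
    have b3 := b1 ((N : ℝ) * (y : ℝ) - j)
    have b4 : |max 0 (min 1 ((N : ℝ) * (x : ℝ) - j)) - max 0 (min 1 ((N : ℝ) * (y : ℝ) - j))| ≤ 1 := by
      rw [abs_le]
      constructor <;> linarith [b2.1, b2.2, b3.1, b3.2]
    calc _ ≤ 1 * ‖f (j + 1) - f j‖ := mul_le_mul_of_nonneg_right b4 (norm_nonneg _)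
      _ ≤ d := by rw [one_mul]; exact hf j
  refine (Finset.sum_le_card_nsmul _ _ _ h1).trans (le_of_eq ?_)
  rw [Finset.card_range, nsmul_eq_mul]

theorem pt_step (n : ℕ) (F : Set H974.Edg) (σ : St) :
    ‖H342L.pt n (nxt F σ).1 - H342L.pt n σ.1‖ ≤ 1 / n := by
  have h0 : (0 : ℝ) ≤ 1 / n := by positivity
  obtain ⟨⟨x, y⟩, q⟩ := σ
  have hx : ∀ s : ℤ, |s| ≤ 1 → ‖H342L.pt n (x + s, y) - H342L.pt n (x, y)‖ ≤ 1 / n := by
    intro s hs
    have h1 : H342L.pt n (x + s, y) - H342L.pt n (x, y) = (((s : ℝ) / n : ℝ) : ℂ) := by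
      apply Complex.ext
      · simp only [H342L.pt, Complex.sub_re, Complex.ofReal_re]
        push_cast
        ring
      · simp only [H342L.pt, Complex.sub_im, Complex.ofReal_im]
        ring
    rw [h1, Complex.norm_real, Real.norm_eq_abs, abs_div, Nat.abs_cast]
    gcongr
    exact_mod_cast hs
  have hy : ∀ s : ℤ, |s| ≤ 1 → ‖H342L.pt n (x, y + s) - H342L.pt n (x, y)‖ ≤ 1 / n := by
    intro s hs
    have h1 : H342L.pt n (x, y + s) - H342L.pt n (x, y) = (((s : ℝ) / n : ℝ) : ℂ) * Complex.I := by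
      apply Complex.ext
      · simp only [H342L.pt, Complex.sub_re, Complex.mul_re, Complex.ofReal_re, Complex.ofReal_im,
          Complex.I_re, Complex.I_im]
        ring
      · simp only [H342L.pt, Complex.sub_im, Complex.mul_im, Complex.ofReal_re, Complex.ofReal_im,
          Complex.I_re, Complex.I_im]
        push_cast
        ring
    rw [h1, norm_mul, Complex.norm_I, mul_one, Complex.norm_real, Real.norm_eq_abs, abs_div,
      Nat.abs_cast]
    gcongr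
    exact_mod_cast hs
  by_cases h : ae ((x, y), q) ∈ F
  · rw [nxt_open h]
    cases q
    · exact hx 1 (by norm_num)
    · exact hy 1 (by norm_num)
    · exact hx (-1) (by norm_num)
    · exact hy (-1) (by norm_num)
  · rw [nxt_closed h]
    have h2 : (rt ((x, y), q)).1 = (x, y) := by cases q <;> rfl
    rw [h2, sub_self, norm_zero]
    exact h0

theorem face_mv (s : ℤ × ℤ) (σ : St) : face (shS s (mv σ)) = face (shS s σ) := by
  obtain ⟨⟨x, y⟩, q⟩ := σ
  cases q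
  · exact Prod.ext (show x + 1 + s.1 - 1 = x + s.1 by ring) rfl
  · exact Prod.ext rfl (show y + 1 + s.2 - 1 = y + s.2 by ring)
  · exact Prod.ext (show x - 1 + s.1 = x + s.1 - 1 by ring) rfl
  · exact Prod.ext rfl (show y - 1 + s.2 = y + s.2 - 1 by ring)

theorem floor_near {N : ℕ} {t δ : ℝ} (ht : 0 ≤ t) (hN : 0 < (N : ℝ)) (h : 1 / (N : ℝ) < δ) :
    |((⌊(N : ℝ) * t⌋₊ : ℕ) : ℝ) / N - t| < δ ∧ ((⌊(N : ℝ) * t⌋₊ : ℕ) : ℝ) / N ≤ t ∧
      t - 1 / N < ((⌊(N : ℝ) * t⌋₊ : ℕ) : ℝ) / N := by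
  have h1 := Nat.floor_le (mul_nonneg hN.le ht)
  have h2 := Nat.lt_floor_add_one ((N : ℝ) * t)
  have h3 : ((⌊(N : ℝ) * t⌋₊ : ℕ) : ℝ) / N ≤ t := by
    rw [div_le_iff₀ hN]; linarith
  have h4 : t - 1 / N < ((⌊(N : ℝ) * t⌋₊ : ℕ) : ℝ) / N := by
    rw [lt_div_iff₀ hN, sub_mul, one_div, inv_mul_cancel₀ hN.ne']; linarith
  refine ⟨?_, h3, h4⟩
  rw [abs_lt]
  constructor <;> linarith

theorem pos5 {a b c d e : ℝ} (ha : 0 < a) (hb : 0 < b) (hc : 0 < c) (hd : 0 < d) (he : 0 < e) :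
    ∃ x : ℝ, 0 < x ∧ x ≤ a ∧ x ≤ b ∧ x ≤ c ∧ x ≤ d ∧ x ≤ e :=
  ⟨min a (min b (min c (min d e))), by positivity, min_le_left _ _,
    (min_le_right _ _).trans (min_le_left _ _),
    (min_le_right _ _).trans ((min_le_right _ _).trans (min_le_left _ _)),
    (min_le_right _ _).trans ((min_le_right _ _).trans ((min_le_right _ _).trans
      (min_le_left _ _))),
    (min_le_right _ _).trans ((min_le_right _ _).trans ((min_le_right _ _).trans
      (min_le_right _ _)))⟩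

/-- the combinatorial part: last time outside before `jm`, first time outside after `jm` -/
theorem comb {D : Dm} (τ : ℕ → St) {j1 jm j2 : ℕ} (h1 : j1 ≤ jm) (h2 : jm ≤ j2)
    (o1 : TH992.T.Out D (face (τ j1))) (o2 : TH992.T.Out D (face (τ j2)))
    (om : ¬ TH992.T.Out D (face (τ jm))) :
    ∃ a M : ℕ, 1 ≤ M ∧ j1 ≤ a ∧ a < jm ∧ jm ≤ a + M ∧ a + M + 1 ≤ j2 ∧
      TH992.T.Out D (face (τ a)) ∧ (∀ j, 1 ≤ j → j ≤ M → ¬ TH992.T.Out D (face (τ (a + j)))) ∧
      TH992.T.Out D (face (τ (a + M + 1))) := by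
  classical
  let P : ℕ → Prop := fun j => TH992.T.Out D (face (τ j))
  let a := Nat.findGreatest P jm
  have ha : P a := Nat.findGreatest_spec (P := P) h1 o1
  have ha1 : j1 ≤ a := Nat.le_findGreatest h1 o1
  have ha2 : a ≤ jm := Nat.findGreatest_le jm
  have ha3 : a < jm := lt_of_le_of_ne ha2 (fun h => om (h ▸ ha))
  have hex : ∃ j, jm ≤ j ∧ P j := ⟨j2, h2, o2⟩
  let b := Nat.find hex
  have hb := Nat.find_spec hex
  have hb2 : b ≤ j2 := Nat.find_min' hex ⟨h2, o2⟩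
  have hb3 : jm < b := lt_of_le_of_ne hb.1 (fun h => om (by
    have h3 : P b := hb.2
    change P jm
    rw [h]; exact h3))
  refine ⟨a, b - a - 1, by omega, ha1, ha3, by omega, by omega, ha, ?_, ?_⟩
  · intro j hj1 hj2
    by_cases h3 : a + j ≤ jm
    · exact Nat.findGreatest_is_greatest (P := P) (by omega : Nat.findGreatest P jm < a + j) h3
    · intro h4
      have h5 : b ≤ a + j := Nat.find_min' hex ⟨by omega, h4⟩
      omega
  · have h6 : a + (b - a - 1) + 1 = b := by omega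
    rw [h6]
    exact hb.2

/-- **lattice paths close to a curve which crosses the rectangle** -/
theorem exit (hG : S_GEO) (hP : S_PERJ) : S_EXIT := by
  intro κ c u v hc01 hu0 hcr hgen ε hε
  obtain ⟨huv, huv1, hin, hside⟩ := hcr
  have hCc : Continuous (per c) := per_cont hc01
  obtain ⟨g1, g2, g3⟩ := hG κ
  have hbu : per c u ∈ κ.left ∨ per c u ∈ κ.right := hside.imp (fun h => h.1) (fun h => h.1)
  have hbv : per c v ∈ κ.left ∨ per c v ∈ κ.right := by
    rcases hside with h | h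
    · exact Or.inr h.2
    · exact Or.inl h.2
  have hL : ∀ z, ∃ η : ℝ, 0 < η ∧ ∃ n0 : ℕ, ∀ n ≥ n0, ∀ σ : St, dist (H342L.pt n σ.1) z < η →
      (TH992.T.Out (κ.dm n) (face (shS (-κ.s n) σ)) ↔
        ¬ TH992.T.Out (κ.dm n) (face (shS (-κ.s n) (rt σ)))) → z ∈ κ.left →
      ae (shS (-κ.s n) σ) ∈ (κ.dm n).wir := by
    intro z
    by_cases hz : z ∈ κ.left
    · obtain ⟨η, h1, n0, h2⟩ := g2 z hz
      exact ⟨η, h1, n0, fun n hn σ h3 h4 _ => h2 n hn σ h3 h4⟩
    · exact ⟨1, one_pos, 0, fun n _ σ _ _ h => absurd h hz⟩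
  have hR : ∀ z, ∃ η : ℝ, 0 < η ∧ ∃ n0 : ℕ, ∀ n ≥ n0, ∀ σ : St, dist (H342L.pt n σ.1) z < η →
      (TH992.T.Out (κ.dm n) (face (shS (-κ.s n) σ)) ↔
        ¬ TH992.T.Out (κ.dm n) (face (shS (-κ.s n) (rt σ)))) → z ∈ κ.right →
      ae (shS (-κ.s n) σ) ∉ (κ.dm n).wir := by
    intro z
    by_cases hz : z ∈ κ.right
    · obtain ⟨η, h1, n0, h2⟩ := g3 z hz
      exact ⟨η, h1, n0, fun n hn σ h3 h4 _ => h2 n hn σ h3 h4⟩
    · exact ⟨1, one_pos, 0, fun n _ σ _ _ h => absurd h hz⟩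
  obtain ⟨η1, p1, n1, q1⟩ := hL (per c u)
  obtain ⟨η2, p2, n2, q2⟩ := hR (per c u)
  obtain ⟨η3, p3, n3, q3⟩ := hL (per c v)
  obtain ⟨η4, p4, n4, q4⟩ := hR (per c v)
  obtain ⟨η0, p0, r1, r2, r3, r4, -⟩ := pos5 p1 p2 p3 p4 one_pos
  -- continuity at the end points
  obtain ⟨d1, hd1, hd1'⟩ := Metric.continuous_iff.1 hCc u (η0 / 2) (by positivity)
  obtain ⟨d2, hd2, hd2'⟩ := Metric.continuous_iff.1 hCc v (η0 / 2) (by positivity)
  obtain ⟨δ, hδ0, hδ1, hδ2, hδ3, hδ4, hδ5⟩ := pos5 (a := ε / 2) (b := u / 2) (c := (v - u) / 4)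
    (d := d1 / 4) (e := d2 / 4) (by positivity) (by positivity) (by linarith) (by positivity)
    (by positivity)
  -- times outside
  obtain ⟨t1, ht1, m1, hm1, ho1⟩ := near_out hgen hbu hδ0
  obtain ⟨t2, ht2, m2, hm2, ho2⟩ := near_out hgen hbv hδ0
  rw [abs_lt] at ht1 ht2
  have ht1u : t1 < u := by
    by_contra hcon
    rcases (not_lt.1 hcon).eq_or_lt with h | h
    · rw [← h] at ho1
      exact PO_not_bd hm1 ho1 hbu
    · exact PO_not_op hm1 ho1 (hin t1 h (by linarith [ht1.2]))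
  have ht2v : v < t2 := by
    by_contra hcon
    rcases (not_lt.1 hcon).eq_or_lt with h | h
    · rw [h] at ho2
      exact PO_not_bd hm2 ho2 hbv
    · exact PO_not_op hm2 ho2 (hin t2 (by linarith [ht2.1]) h)
  obtain ⟨m3, hm3, hi3⟩ := margin (κ := κ) hCc (a := u + δ) (b := v - δ)
    (fun t ht => hin t (by linarith [ht.1]) (by linarith [ht.2]))
  obtain ⟨s1, hs1, hs1'⟩ := Metric.isOpen_iff.1 ((isOpen_PO κ m1).preimage hCc) t1 ho1
  obtain ⟨s2, hs2, hs2'⟩ := Metric.isOpen_iff.1 ((isOpen_PO κ m2).preimage hCc) t2 ho2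
  -- the diameter
  have htm : per c ((u + v) / 2) ∈ κ.op := hin _ (by linarith) (by linarith)
  have hD : 0 < dist (per c t1) (per c ((u + v) / 2)) := by
    rw [dist_pos]
    intro h
    exact PO_not_op hm1 ho1 (by rw [h]; exact htm)
  obtain ⟨D0, hD0⟩ : ∃ D0, D0 = dist (per c t1) (per c ((u + v) / 2)) := ⟨_, rfl⟩
  rw [← hD0] at hD
  obtain ⟨ρ, hρ0, hρ1, hρ2, hρ3, hρ4, hρ5⟩ := pos5 (a := m1 / 2) (b := m2 / 2) (c := m3 / 2)
    (d := η0 / 2) (e := D0 / 4) (by positivity) (by positivity) (by positivity) (by positivity)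
    (by positivity)
  obtain ⟨n5, hn5⟩ := g1 ρ hρ0
  -- lower bound for `1 / N`
  obtain ⟨x, hx0, hx1, hx2, hx3, hx4, hx5⟩ := pos5 (a := s1 / 2) (b := s2 / 2)
    (c := (u - t1) / 2) (d := (t1 - (u - δ)) / 2) (e := (v + δ - t2) / 2) (by positivity)
    (by positivity) (by linarith) (by linarith [ht1.1]) (by linarith [ht2.2])
  obtain ⟨y, hy0, hy1, hy2, hy3, hy4, -⟩ := pos5 (a := x) (b := (t2 - v) / 2)
    (c := (v - u) / 8) (d := δ / 2) (e := 1) hx0 (by linarith) (by linarith) (by positivity)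
    one_pos
  obtain ⟨n6, hn6⟩ := exists_nat_gt (2 / (D0 * y))
  refine ⟨ρ, hρ0, n1 + n2 + n3 + n4 + n5 + n6 + 1, ?_⟩
  intro n hn F σ N hN0 hcl hdist
  have hNR : (0 : ℝ) < N := by exact_mod_cast hN0
  have hnR : (0 : ℝ) < n := by exact_mod_cast (by omega : 0 < n)
  -- `N` is large
  have hNy : 1 / (N : ℝ) < y := by
    have e1 : D0 ≤ 2 * ρ + N * (1 / n) := by
      let x1 : unitInterval := ⟨Int.fract t1, Int.fract_nonneg t1, (Int.fract_lt_one t1).le⟩
      let x2 : unitInterval := ⟨Int.fract ((u + v) / 2), Int.fract_nonneg _,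
        (Int.fract_lt_one _).le⟩
      let pl := H342T.poly (fun j => H342L.pt n (orb (↑F) σ j).1) N
      have e2 : dist (pl x1) (c x1) ≤ ρ := (ContinuousMap.dist_apply_le_dist x1).trans hdist.le
      have e3 : dist (pl x2) (c x2) ≤ ρ := (ContinuousMap.dist_apply_le_dist x2).trans hdist.le
      have e4 : dist (pl x1) (pl x2) ≤ N * (1 / n) := by
        apply poly_diam
        intro j
        rw [orb_succ]
        exact pt_step n _ _
      have e5 : D0 = dist (c x1) (c x2) := hD0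
      have e6 := dist_triangle4 (c x1) (pl x1) (pl x2) (c x2)
      rw [dist_comm (c x1) (pl x1)] at e6
      linarith
    have e7 : D0 / 2 ≤ N * (1 / n) := by linarith
    have e8 : (n6 : ℝ) ≤ n := by exact_mod_cast (by omega : n6 ≤ n)
    have e9 : 2 / (D0 * y) < n := hn6.trans_le e8
    rw [div_lt_iff₀ (by positivity)] at e9
    rw [mul_one_div, div_le_div_iff₀ (by norm_num) hnR] at e7
    rw [div_lt_iff₀ hNR]
    nlinarith
  have ht10 : 0 < t1 := by linarith [ht1.1]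
  obtain ⟨f1, f2, f3⟩ := floor_near (t := t1) ht10.le hNR hNy
  obtain ⟨f4, f5, f6⟩ := floor_near (t := (u + v) / 2) (by linarith) hNR hNy
  obtain ⟨f7, f8, f9⟩ := floor_near (t := t2) (by linarith) hNR hNy
  obtain ⟨j1, hj1⟩ : ∃ j, j = ⌊(N : ℝ) * t1⌋₊ := ⟨_, rfl⟩
  obtain ⟨jm, hjm⟩ : ∃ j, j = ⌊(N : ℝ) * ((u + v) / 2)⌋₊ := ⟨_, rfl⟩
  obtain ⟨j2, hj2⟩ : ∃ j, j = ⌊(N : ℝ) * t2⌋₊ := ⟨_, rfl⟩
  rw [← hj1] at f1 f2 f3
  rw [← hjm] at f4 f5 f6
  rw [← hj2] at f7 f8 f9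
  -- the points of the lattice path
  have hpj := hP n F σ N hN0 hcl c hc01 ρ hdist
  let τ : ℕ → St := fun j => shS (-κ.s n) (orb (↑F) σ j)
  have hinn : ∀ j : ℕ, u + δ ≤ (j : ℝ) / N → (j : ℝ) / N ≤ v - δ →
      ¬ TH992.T.Out (κ.dm n) (face (τ j)) := by
    intro j k1 k2
    exact (hn5 n (by omega) (orb (↑F) σ j)).1
      (QI_near (hi3 _ ⟨k1, k2⟩) (by linarith) (hpj j))
  have hle : ∀ i j : ℕ, (i : ℝ) / N ≤ (j : ℝ) / N → i ≤ j := by
    intro i j h
    have := (div_le_div_iff_of_pos_right hNR).1 h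
    exact_mod_cast this
  have hle' : ∀ i j : ℕ, i ≤ j → (i : ℝ) / N ≤ (j : ℝ) / N := by
    intro i j h
    have : (i : ℝ) ≤ j := by exact_mod_cast h
    gcongr
  obtain ⟨a, M, c1, c2, c3, c4, c5, c6, c7, c8⟩ := comb (D := κ.dm n) τ (j1 := j1) (jm := jm)
    (j2 := j2) (hle _ _ (by linarith)) (hle _ _ (by linarith))
    ((hn5 n (by omega) (orb (↑F) σ j1)).2 (PO_near (hs1' (by
      rw [Metric.mem_ball, Real.dist_eq]; exact f1.trans_le (by linarith)))
      (by linarith) (hpj j1)))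
    ((hn5 n (by omega) (orb (↑F) σ j2)).2 (PO_near (hs2' (by
      rw [Metric.mem_ball, Real.dist_eq]; exact f7.trans_le (by linarith)))
      (by linarith) (hpj j2)))
    (hinn jm (by linarith) (by linarith))
  -- position of the end times
  have ka1 : u - δ < (a : ℝ) / N := by
    have := hle' j1 a c2
    linarith
  have ka2 : (a : ℝ) / N < u + δ := by
    by_contra hcon
    have h1 := hle' a jm c3.le
    exact hinn a (not_lt.1 hcon) (by linarith) c6
  have kb1 : v - δ < ((a + M + 1 : ℕ) : ℝ) / N := by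
    by_contra hcon
    have h1 := hle' jm (a + M + 1) (by omega)
    exact hinn (a + M + 1) (by linarith) (not_lt.1 hcon) c8
  have kb2 : ((a + M + 1 : ℕ) : ℝ) / N < v + δ := by
    have := hle' (a + M + 1) j2 c5
    linarith
  have kb3 : ((a + M + 1 : ℕ) : ℝ) / N = ((a + M : ℕ) : ℝ) / N + 1 / N := by
    push_cast; ring
  -- the steps are turns
  have turn : ∀ j : ℕ, (TH992.T.Out (κ.dm n) (face (τ j)) ↔
      ¬ TH992.T.Out (κ.dm n) (face (τ (j + 1)))) →
      (TH992.T.Out (κ.dm n) (face (shS (-κ.s n) (orb (↑F) σ j))) ↔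
        ¬ TH992.T.Out (κ.dm n) (face (shS (-κ.s n) (rt (orb (↑F) σ j))))) := by
    intro j hj
    have h1 : τ (j + 1) = shS (-κ.s n) (nxt (↑F) (orb (↑F) σ j)) := by
      change shS (-κ.s n) (orb (↑F) σ (j + 1)) = _
      rw [orb_succ]
    rw [h1] at hj
    by_cases h2 : ae (orb (↑F : Set H974.Edg) σ j) ∈ (↑F : Set H974.Edg)
    · rw [nxt_open h2, face_mv] at hj
      exact absurd hj (by
        change ¬ (TH992.T.Out (κ.dm n) (face (shS (-κ.s n) (orb (↑F) σ j))) ↔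
          ¬ TH992.T.Out (κ.dm n) (face (shS (-κ.s n) (orb (↑F) σ j))))
        tauto)
    · rw [nxt_closed h2] at hj
      exact hj
  have hout1 : ¬ TH992.T.Out (κ.dm n) (face (τ (a + 1))) := c7 1 le_rfl c1
  have hout2 : ¬ TH992.T.Out (κ.dm n) (face (τ (a + M))) := c7 M c1 le_rfl
  have T1 := turn a ⟨fun _ => hout1, fun _ => c6⟩
  have T2 := turn (a + M) ⟨fun h => absurd h hout2, fun h => absurd c8 h⟩
  have E1 : dist (H342L.pt n (orb (↑F) σ a).1) (per c u) < η0 := by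
    have h1 := hpj a
    have h2 := hd1' ((a : ℝ) / N) (by
      rw [Real.dist_eq, abs_lt]; constructor <;> linarith)
    have h3 := dist_triangle (H342L.pt n (orb (↑F) σ a).1) (per c ((a : ℝ) / N)) (per c u)
    linarith
  have E2 : dist (H342L.pt n (orb (↑F) σ (a + M)).1) (per c v) < η0 := by
    have h1 := hpj (a + M)
    have h2 := hd2' (((a + M : ℕ) : ℝ) / N) (by
      rw [Real.dist_eq, abs_lt]; constructor <;> linarith)
    have h3 := dist_triangle (H342L.pt n (orb (↑F) σ (a + M)).1) (per c (((a + M : ℕ) : ℝ) / N))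
      (per c v)
    linarith
  refine ⟨a, M, ⟨c1, c6, c7, c8, ?_⟩, ?_, ?_⟩
  · change ae (τ a) ∈ (κ.dm n).wir ↔ ae (τ (a + M)) ∉ (κ.dm n).wir
    rcases hside with ⟨k1, k2⟩ | ⟨k1, k2⟩
    · have W1 := q1 n (by omega) _ (E1.trans_le r1) T1 k1
      have W2 := q4 n (by omega) _ (E2.trans_le r4) T2 k2
      exact ⟨fun _ => W2, fun _ => W1⟩
    · have W1 := q2 n (by omega) _ (E1.trans_le r2) T1 k1
      have W2 := q3 n (by omega) _ (E2.trans_le r3) T2 k2
      exact ⟨fun h => absurd h W1, fun h => absurd W2 h⟩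
  · rw [abs_le]; constructor <;> linarith
  · rw [abs_le]; constructor <;> linarith

end Pool.Agent.Y584.LG
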