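import Pool.Agent.Y995.LG.Stm

/-!
# Choice of a generic rectangle crossed by the curve (LG-SPLIT)

Author helper584, for project LG of helper995.
-/

set_option autoImplicit false


namespace Pool.Agent.Y584.LG

open Pool.Agent.Y995.LG Set

/-- the open rectangle -/
def bx (l r b h : ℝ) : Set ℂ := {z | l < z.re ∧ z.re < r ∧ b < z.im ∧ z.im < h}

theorem isOpen_bx (l r b h : ℝ) : IsOpen (bx l r b h) := by
  refine (isOpen_lt continuous_const Complex.continuous_re).inter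
    ((isOpen_lt Complex.continuous_re continuous_const).inter
    ((isOpen_lt continuous_const Complex.continuous_im).inter
    (isOpen_lt Complex.continuous_im continuous_const)))

theorem comp_exists (S : Set ℝ) (hS : IsOpen S) {t0 a b : ℝ} (ht0 : t0 ∈ S) (ha : a < t0)
    (haS : a ∉ S) (hb : t0 < b) (hbS : b ∉ S) :
    ∃ u v : ℝ, a ≤ u ∧ u < t0 ∧ t0 < v ∧ v ≤ b ∧ u ∉ S ∧ v ∉ S ∧ ∀ t, u < t → t < v → t ∈ S := by
  have h1 : IsCompact (Icc a t0 ∩ Sᶜ) := isCompact_Icc.inter_right hS.isClosed_compl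
  have h2 : IsCompact (Icc t0 b ∩ Sᶜ) := isCompact_Icc.inter_right hS.isClosed_compl
  obtain ⟨u, hu, hu'⟩ := h1.exists_isGreatest ⟨a, ⟨le_rfl, ha.le⟩, haS⟩
  obtain ⟨v, hv, hv'⟩ := h2.exists_isLeast ⟨b, ⟨hb.le, le_rfl⟩, hbS⟩
  have hu0 : u ≠ t0 := by rintro rfl; exact hu.2 ht0
  have hv0 : v ≠ t0 := by rintro rfl; exact hv.2 ht0
  refine ⟨u, v, hu.1.1, lt_of_le_of_ne hu.1.2 hu0, lt_of_le_of_ne hv.1.1 hv0.symm, hv.1.2,
    hu.2, hv.2, ?_⟩
  intro t h3 h4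
  by_contra ht
  rcases le_total t t0 with h5 | h5
  · have := hu' ⟨⟨hu.1.1.trans h3.le, h5⟩, ht⟩
    linarith
  · have := hv' ⟨⟨h5, h4.le.trans hv.1.2⟩, ht⟩
    linarith

theorem le_of_Ioo {f : ℝ → ℝ} (hf : Continuous f) {u v a : ℝ} (huv : u < v)
    (h : ∀ t, u < t → t < v → a ≤ f t) : ∀ t, u ≤ t → t ≤ v → a ≤ f t := by
  have h1 : Icc u v ⊆ {t | a ≤ f t} := by
    rw [← closure_Ioo huv.ne]
    exact (isClosed_le continuous_const hf).closure_subset_iff.2 (fun t ht => h t ht.1 ht.2)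
  exact fun t h2 h3 => h1 ⟨h2, h3⟩

theorem closed_bx {c : ℝ → ℂ} (hc : Continuous c) {l r b h u v : ℝ} (huv : u < v)
    (hin : ∀ t, u < t → t < v → c t ∈ bx l r b h) :
    ∀ t, u ≤ t → t ≤ v → l ≤ (c t).re ∧ (c t).re ≤ r ∧ b ≤ (c t).im ∧ (c t).im ≤ h := by
  intro t h1 h2
  have hre := Complex.continuous_re.comp hc
  have him := Complex.continuous_im.comp hc
  refine ⟨le_of_Ioo hre huv (fun t h1 h2 => (hin t h1 h2).1.le) t h1 h2, ?_,
    le_of_Ioo him huv (fun t h1 h2 => (hin t h1 h2).2.2.1.le) t h1 h2, ?_⟩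
  · have := le_of_Ioo hre.neg huv (a := -r) (fun t h1 h2 => neg_le_neg (hin t h1 h2).2.1.le) t h1 h2
    exact neg_le_neg_iff.1 this
  · have := le_of_Ioo him.neg huv (a := -h) (fun t h1 h2 => neg_le_neg (hin t h1 h2).2.2.2.le)
      t h1 h2
    exact neg_le_neg_iff.1 this

/-- a point of the closed rectangle outside of the open one is on one of the four lines -/
theorem bdry {z : ℂ} {l r b h : ℝ} (h1 : l ≤ z.re ∧ z.re ≤ r ∧ b ≤ z.im ∧ z.im ≤ h)
    (h2 : z ∉ bx l r b h) : z.re = l ∨ z.re = r ∨ z.im = b ∨ z.im = h := by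
  by_contra hcon
  push Not at hcon
  exact h2 ⟨lt_of_le_of_ne h1.1 hcon.1.symm, lt_of_le_of_ne h1.2.1 hcon.2.1,
    lt_of_le_of_ne h1.2.2.1 hcon.2.2.1.symm, lt_of_le_of_ne h1.2.2.2 hcon.2.2.2⟩

section main

variable {Dx Dy : Set ℝ} {c : ℝ → ℂ}

theorem lt_one (hc : Continuous c) (hper : ∀ t, c (t + 1) = c t)
    (hx : ∀ x ∈ Dx, Gen Complex.re x c) (hy : ∀ x ∈ Dy, Gen Complex.im x c)
    {l r b h u v : ℝ} (hl : l ∈ Dx) (hr : r ∈ Dx) (hb : b ∈ Dy) (hh : h ∈ Dy) (huv : u < v)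
    (hu : c u ∉ bx l r b h) (hin : ∀ t, u < t → t < v → c t ∈ bx l r b h) : v < u + 1 := by
  have h1 : v ≤ u + 1 := by
    by_contra hcon
    push Not at hcon
    apply hu
    rw [← hper u]
    exact hin _ (by linarith) hcon
  rcases h1.lt_or_eq with h2 | h2
  · exact h2
  exfalso
  have h3 : ∀ s, |s - u| < 1 → s ≠ u → c s ∈ bx l r b h := by
    intro s hs hsu
    rw [abs_lt] at hs
    rcases lt_or_gt_of_ne hsu with h4 | h4
    · rw [← hper s]
      exact hin _ (by linarith [hs.1]) (by linarith)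
    · exact hin _ h4 (by linarith [hs.2])
  rcases bdry (closed_bx hc huv hin u le_rfl huv.le) hu with h4 | h4 | h4 | h4
  · obtain ⟨s, hs1, hs2⟩ := (hx l hl u h4 1 one_pos).1
    have h5 : s ≠ u := by rintro rfl; linarith
    linarith [(h3 s hs1 h5).1]
  · obtain ⟨s, hs1, hs2⟩ := (hx r hr u h4 1 one_pos).2
    have h5 : s ≠ u := by rintro rfl; linarith
    linarith [(h3 s hs1 h5).2.1]
  · obtain ⟨s, hs1, hs2⟩ := (hy b hb u h4 1 one_pos).1
    have h5 : s ≠ u := by rintro rfl; linarith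
    linarith [(h3 s hs1 h5).2.2.1]
  · obtain ⟨s, hs1, hs2⟩ := (hy h hh u h4 1 one_pos).2
    have h5 : s ≠ u := by rintro rfl; linarith
    linarith [(h3 s hs1 h5).2.2.2]

/-- the conclusion -/
def Goal (Dx Dy : Set ℝ) (c : ℝ → ℂ) (t0 : ℝ) : Prop :=
  ∃ κ : Loc, (κ.l ∈ Dx ∧ κ.r ∈ Dx ∧ κ.α ∈ Dx ∧ κ.β ∈ Dx ∧ κ.b ∈ Dy ∧ κ.h ∈ Dy) ∧
    ∃ u v : ℝ, u < t0 ∧ t0 < v ∧ Crs κ c u v

/-- both points have different abscissas -/
theorem fin_ne (hDx : ∀ a b : ℝ, 0 ≤ a → a < b → b ≤ 1 → ∃ x ∈ Dx, a < x ∧ x < b)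
    (hc : Continuous c) {l r b h u v t0 : ℝ} (hl : l ∈ Dx) (hr : r ∈ Dx) (hb : b ∈ Dy)
    (hh : h ∈ Dy) (l0 : 0 < l) (r1 : r < 1) (b0 : 0 < b) (h1 : h < 1) (bh : b < h)
    (hut : u < t0) (htv : t0 < v) (hu : c u ∉ bx l r b h) (hv : c v ∉ bx l r b h)
    (hin : ∀ t, u < t → t < v → c t ∈ bx l r b h) (huv1 : v < u + 1)
    (hne : (c u).re ≠ (c v).re) : Goal Dx Dy c t0 := by
  have huv : u < v := hut.trans htv
  have hbu := closed_bx hc huv hin u le_rfl huv.le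
  have hbv := closed_bx hc huv hin v huv.le le_rfl
  have e1 := bdry hbu hu
  have e2 := bdry hbv hv
  rcases lt_or_gt_of_ne hne with h3 | h3
  · obtain ⟨a, ha, ha1, ha2⟩ := hDx _ _ (l0.le.trans hbu.1) h3 (hbv.2.1.trans r1.le)
    have g1 : l < a := lt_of_le_of_lt hbu.1 ha1
    have g2 : a < r := lt_of_lt_of_le ha2 hbv.2.1
    refine ⟨⟨l, r, b, h, a, a, l0, r1, b0, bh, h1, g1, g2, g1, g2⟩, ⟨hl, hr, ha, ha, hb, hh⟩,
      u, v, hut, htv, huv, huv1, hin, Or.inl ⟨?_, ?_⟩⟩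
    · rcases e1 with e | e | e | e
      · exact Or.inl ⟨e, hbu.2.2.1, hbu.2.2.2⟩
      · exfalso; linarith
      · exact Or.inr (Or.inr ⟨e, hbu.1, ha1⟩)
      · exact Or.inr (Or.inl ⟨e, hbu.1, ha1⟩)
    · rcases e2 with e | e | e | e
      · exfalso; linarith
      · exact Or.inl ⟨e, hbv.2.2.1, hbv.2.2.2⟩
      · exact Or.inr (Or.inr ⟨e, ha2, hbv.2.1⟩)
      · exact Or.inr (Or.inl ⟨e, ha2, hbv.2.1⟩)
  · obtain ⟨a, ha, ha1, ha2⟩ := hDx _ _ (l0.le.trans hbv.1) h3 (hbu.2.1.trans r1.le)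
    have g1 : l < a := lt_of_le_of_lt hbv.1 ha1
    have g2 : a < r := lt_of_lt_of_le ha2 hbu.2.1
    refine ⟨⟨l, r, b, h, a, a, l0, r1, b0, bh, h1, g1, g2, g1, g2⟩, ⟨hl, hr, ha, ha, hb, hh⟩,
      u, v, hut, htv, huv, huv1, hin, Or.inr ⟨?_, ?_⟩⟩
    · rcases e1 with e | e | e | e
      · exfalso; linarith
      · exact Or.inl ⟨e, hbu.2.2.1, hbu.2.2.2⟩
      · exact Or.inr (Or.inr ⟨e, ha2, hbu.2.1⟩)
      · exact Or.inr (Or.inl ⟨e, ha2, hbu.2.1⟩)
    · rcases e2 with e | e | e | e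
      · exact Or.inl ⟨e, hbv.2.2.1, hbv.2.2.2⟩
      · exfalso; linarith
      · exact Or.inr (Or.inr ⟨e, hbv.1, ha1⟩)
      · exact Or.inr (Or.inl ⟨e, hbv.1, ha1⟩)

/-- one point is on the top side, the other one on the bottom side, same abscissa -/
theorem fin_tb (hDx : ∀ a b : ℝ, 0 ≤ a → a < b → b ≤ 1 → ∃ x ∈ Dx, a < x ∧ x < b)
    {l r b h u v t0 : ℝ} (hl : l ∈ Dx) (hr : r ∈ Dx) (hb : b ∈ Dy)
    (hh : h ∈ Dy) (l0 : 0 < l) (r1 : r < 1) (b0 : 0 < b) (h1 : h < 1) (bh : b < h)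
    (hut : u < t0) (htv : t0 < v)
    (hin : ∀ t, u < t → t < v → c t ∈ bx l r b h) (huv1 : v < u + 1)
    {x : ℝ} (hx1 : l < x) (hx2 : x < r) (hux : (c u).re = x) (hvx : (c v).re = x)
    (htb : ((c u).im = h ∧ (c v).im = b) ∨ ((c u).im = b ∧ (c v).im = h)) : Goal Dx Dy c t0 := by
  have huv : u < v := hut.trans htv
  obtain ⟨a, ha, ha1, ha2⟩ := hDx x r (by linarith) hx2 r1.le
  obtain ⟨a', ha', ha1', ha2'⟩ := hDx l x l0.le hx1 (by linarith)
  refine ⟨⟨l, r, b, h, a, a', l0, r1, b0, bh, h1, by linarith, ha2, ha1', by linarith⟩,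
      ⟨hl, hr, ha, ha', hb, hh⟩, u, v, hut, htv, huv, huv1, hin, ?_⟩
  rcases htb with ⟨e1, e2⟩ | ⟨e1, e2⟩
  · left
    exact ⟨Or.inr (Or.inl ⟨e1, by rw [hux]; exact hx1.le, by rw [hux]; exact ha1⟩),
      Or.inr (Or.inr ⟨e2, by rw [hvx]; exact ha2', by rw [hvx]; exact hx2.le⟩)⟩
  · right
    exact ⟨Or.inr (Or.inr ⟨e1, by rw [hux]; exact ha2', by rw [hux]; exact hx2.le⟩),
      Or.inr (Or.inl ⟨e2, by rw [hvx]; exact hx1.le, by rw [hvx]; exact ha1⟩)⟩

/-- the smaller rectangle -/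
theorem small (hDx : ∀ a b : ℝ, 0 ≤ a → a < b → b ≤ 1 → ∃ x ∈ Dx, a < x ∧ x < b)
    (hc : Continuous c) {l r b h u v t0 : ℝ} (hl : l ∈ Dx) (hr : r ∈ Dx)
    (l0 : 0 < l) (r1 : r < 1) (b0 : 0 < b) (h1 : h < 1)
    (hut : u < t0) (htv : t0 < v)
    (hin : ∀ t, u < t → t < v → c t ∈ bx l r b h) (hu : c u ∉ bx l r b h)
    (hv : c v ∉ bx l r b h) (huv1 : v < u + 1)
    {X y0 b' h' : ℝ} (hXu : (c u).re = X) (hXv : (c v).re = X)
    (hX : ∀ t, u < t → t < v → (c t).re ≠ X) (hy0 : NoDbl Complex.im y0 c)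
    (hb' : b' ∈ Dy) (hh' : h' ∈ Dy) (bb' : b ≤ b') (hh1 : h' ≤ h)
    (ht0 : b' < (c t0).im ∧ (c t0).im < h')
    (H2 : ∀ y, b < y → y < h → b' ≤ y → y ≤ h' → (b' < y → h' ≤ y) → y = y0)
    (H3 : ¬ ((b' ≤ (c u).im ∧ (c u).im ≤ h') ∧ (b' ≤ (c v).im ∧ (c v).im ≤ h'))) :
    Goal Dx Dy c t0 := by
  have hin0 := hin t0 hut htv
  have hsub : ∀ z, z ∈ bx l r b' h' → z ∈ bx l r b h := fun z hz =>
    ⟨hz.1, hz.2.1, lt_of_le_of_lt bb' hz.2.2.1, lt_of_lt_of_le hz.2.2.2 hh1⟩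
  obtain ⟨u', v', a1, a2, a3, a4, a5, a6, a7⟩ := comp_exists (c ⁻¹' bx l r b' h')
    ((isOpen_bx l r b' h').preimage hc) (t0 := t0) (a := u) (b := v)
    ⟨hin0.1, hin0.2.1, ht0.1, ht0.2⟩ hut (fun h => hu (hsub _ h)) htv (fun h => hv (hsub _ h))
  have huv' : u' < v' := a2.trans a3
  have c1 := closed_bx hc huv' a7 u' le_rfl huv'.le
  have c2 := closed_bx hc huv' a7 v' huv'.le le_rfl
  have key : ∀ t, u < t → t < v → (b' ≤ (c t).im ∧ (c t).im ≤ h') → c t ∉ bx l r b' h' →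
      (c t).im = y0 := by
    intro t h2 h3 h4 h5
    have h6 := hin t h2 h3
    apply H2 _ h6.2.2.1 h6.2.2.2 h4.1 h4.2
    intro h7
    by_contra h8
    exact h5 ⟨h6.1, h6.2.1, h7, not_le.1 h8⟩
  apply fin_ne hDx hc hl hr hb' hh' l0 r1 (b0.trans_le bb') (hh1.trans_lt h1)
    (ht0.1.trans ht0.2) a2 a3 a5 a6 a7 (by linarith)
  rcases a1.eq_or_lt with g1 | g1
  · rcases a4.eq_or_lt with g2 | g2
    · exfalso
      apply H3
      rw [g1, ← g2]
      exact ⟨c1.2.2, c2.2.2⟩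
    · rw [← g1, hXu]
      exact (hX v' (by linarith) g2).symm
  · rcases a4.eq_or_lt with g2 | g2
    · rw [g2, hXv]
      exact hX u' g1 (by linarith)
    · intro heq
      have e1 := key u' g1 (by linarith) c1.2.2 a5
      have e2 := key v' (by linarith) g2 c2.2.2 a6
      have e3 : c u' = c v' := Complex.ext heq (e1.trans e2.symm)
      exact hy0 u' v' huv' (by linarith) e3 e1

/-- **choice of a generic rectangle crossed by the curve** -/
theorem split : S_SPLIT := by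
  intro Dx Dy hDx hDy c hc hper hx hy t0 ht0 ht1
  obtain ⟨t1, ht1⟩ := ht1
  obtain ⟨s1, s2, s3, s4⟩ := ht0
  change Goal Dx Dy c t0
  -- the rectangle
  obtain ⟨l, hl, r, hr, b, hb, h, hh, l0, l1, r0, r1, b0, b1, h0, h1, hout⟩ :
      ∃ l ∈ Dx, ∃ r ∈ Dx, ∃ b ∈ Dy, ∃ h ∈ Dy, 0 < l ∧ l < (c t0).re ∧ (c t0).re < r ∧ r < 1 ∧
        0 < b ∧ b < (c t0).im ∧ (c t0).im < h ∧ h < 1 ∧ c t1 ∉ bx l r b h := by
    by_cases hre : (c t1).re = (c t0).re
    · have him : (c t1).im ≠ (c t0).im := fun h => ht1 (Complex.ext hre h)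
      obtain ⟨l, hl, l0, l1⟩ := hDx 0 (c t0).re le_rfl s1 s2.le
      obtain ⟨r, hr, r0, r1⟩ := hDx (c t0).re 1 s1.le s2 le_rfl
      rcases lt_or_gt_of_ne him with h2 | h2
      · obtain ⟨b, hb, b0, b1⟩ := hDy (max 0 (c t1).im) (c t0).im (le_max_left _ _)
          (max_lt s3 h2) s4.le
        obtain ⟨h, hh, h0, h1⟩ := hDy (c t0).im 1 s3.le s4 le_rfl
        refine ⟨l, hl, r, hr, b, hb, h, hh, l0, l1, r0, r1, (le_max_left _ _).trans_lt b0, b1,
          h0, h1, fun h3 => ?_⟩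
        have := h3.2.2.1
        have := (le_max_right 0 (c t1).im).trans_lt b0
        linarith
      · obtain ⟨h, hh, h0, h1⟩ := hDy (c t0).im (min 1 (c t1).im) s3.le (lt_min s4 h2)
          (min_le_left _ _)
        obtain ⟨b, hb, b0, b1⟩ := hDy 0 (c t0).im le_rfl s3 s4.le
        refine ⟨l, hl, r, hr, b, hb, h, hh, l0, l1, r0, r1, b0, b1,
          h0, h1.trans_le (min_le_left _ _), fun h3 => ?_⟩
        have := h3.2.2.2
        have := h1.trans_le (min_le_right 1 (c t1).im)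
        linarith
    · obtain ⟨b, hb, b0, b1⟩ := hDy 0 (c t0).im le_rfl s3 s4.le
      obtain ⟨h, hh, h0, h1⟩ := hDy (c t0).im 1 s3.le s4 le_rfl
      rcases lt_or_gt_of_ne hre with h2 | h2
      · obtain ⟨l, hl, l0, l1⟩ := hDx (max 0 (c t1).re) (c t0).re (le_max_left _ _)
          (max_lt s1 h2) s2.le
        obtain ⟨r, hr, r0, r1⟩ := hDx (c t0).re 1 s1.le s2 le_rfl
        refine ⟨l, hl, r, hr, b, hb, h, hh, (le_max_left _ _).trans_lt l0, l1, r0, r1, b0, b1,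
          h0, h1, fun h3 => ?_⟩
        have := h3.1
        have := (le_max_right 0 (c t1).re).trans_lt l0
        linarith
      · obtain ⟨r, hr, r0, r1⟩ := hDx (c t0).re (min 1 (c t1).re) s1.le (lt_min s2 h2)
          (min_le_left _ _)
        obtain ⟨l, hl, l0, l1⟩ := hDx 0 (c t0).re le_rfl s1 s2.le
        refine ⟨l, hl, r, hr, b, hb, h, hh, l0, l1, r0, r1.trans_le (min_le_left _ _), b0, b1,
          h0, h1, fun h3 => ?_⟩
        have := h3.2.1
        have := r1.trans_le (min_le_right 1 (c t1).re)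
        linarith
  -- exit times
  have hper' : ∀ (n : ℕ) (t : ℝ), c (t + n) = c t := by
    intro n
    induction n with
    | zero => intro t; simp
    | succ n ih =>
      intro t
      have h2 : t + ((n + 1 : ℕ) : ℝ) = (t + n) + 1 := by push_cast; ring
      rw [h2, hper, ih]
  obtain ⟨N, hN⟩ := exists_nat_gt |t1 - t0|
  have hN' := abs_lt.1 hN
  have e1 : c (t1 - N) ∉ bx l r b h := by
    have := hper' N (t1 - N)
    rw [sub_add_cancel] at this
    rw [← this]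
    exact hout
  have e2 : c (t1 + N) ∉ bx l r b h := by
    rw [hper' N]
    exact hout
  obtain ⟨u, v, -, a2, a3, -, a5, a6, a7⟩ := comp_exists (c ⁻¹' bx l r b h)
    ((isOpen_bx l r b h).preimage hc) (t0 := t0) (a := t1 - N) (b := t1 + N)
    ⟨l1, r0, b1, h0⟩ (by linarith) e1 (by linarith) e2
  have huv : u < v := a2.trans a3
  have huv1 : v < u + 1 := lt_one hc hper (fun x hx' => (hx x hx').1) (fun x hx' => (hy x hx').1)
    hl hr hb hh huv a5 a7
  by_cases hne : (c u).re = (c v).re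
  swap
  · exact fin_ne hDx hc hl hr hb hh l0 r1 b0 h1 (b1.trans h0) a2 a3 a5 a6 a7 huv1 hne
  have c1 := closed_bx hc huv a7 u le_rfl huv.le
  have c2 := closed_bx hc huv a7 v huv.le le_rfl
  have d1 := bdry c1 a5
  have d2 := bdry c2 a6
  -- the two points are different
  have him : (c u).im ≠ (c v).im := by
    intro him
    have heq : c u = c v := Complex.ext hne him
    rcases d1 with e | e | e | e
    · exact (hx l hl).2 u v huv huv1 heq e
    · exact (hx r hr).2 u v huv huv1 heq e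
    · exact (hy b hb).2 u v huv huv1 heq e
    · exact (hy h hh).2 u v huv huv1 heq e
  by_cases hX : (c u).re = l ∨ (c u).re = r
  · -- choice of the height
    obtain ⟨y0, hy0, g1, g2, g3⟩ : ∃ y0 ∈ Dy, min (c u).im (c v).im < y0 ∧
        y0 < max (c u).im (c v).im ∧ y0 ≠ (c t0).im := by
      have k1 : min (c u).im (c v).im < max (c u).im (c v).im := by
        rcases lt_or_gt_of_ne him with h2 | h2
        · rw [min_eq_left h2.le, max_eq_right h2.le]; exact h2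
        · rw [min_eq_right h2.le, max_eq_left h2.le]; exact h2
      have k2 : 0 ≤ min (c u).im (c v).im := le_min (b0.le.trans c1.2.2.1) (b0.le.trans c2.2.2.1)
      have k3 : max (c u).im (c v).im ≤ 1 := max_le (c1.2.2.2.trans h1.le) (c2.2.2.2.trans h1.le)
      obtain ⟨y, hy1, hy2, hy3⟩ := hDy _ _ k2 k1 k3
      by_cases hyt : y = (c t0).im
      · obtain ⟨y', hy1', hy2', hy3'⟩ := hDy _ _ k2 hy2 (hy3.le.trans k3)
        exact ⟨y', hy1', hy2', hy3'.trans hy3, by rw [← hyt]; exact hy3'.ne⟩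
      · exact ⟨y, hy1, hy2, hy3, hyt⟩
    have hXt : ∀ t, u < t → t < v → (c t).re ≠ (c u).re := by
      intro t h2 h3 h4
      have h5 := a7 t h2 h3
      rcases hX with h6 | h6
      · rw [h6] at h4; exact absurd h5.1 (by rw [h4]; exact lt_irrefl _)
      · rw [h6] at h4; exact absurd h5.2.1 (by rw [h4]; exact lt_irrefl _)
    have hlo : b < y0 := (le_min c1.2.2.1 c2.2.2.1).trans_lt g1
    have hhi : y0 < h := g2.trans_le (max_le c1.2.2.2 c2.2.2.2)
    rcases lt_or_gt_of_ne g3 with h2 | h2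
    · apply small hDx hc hl hr l0 r1 b0 h1 a2 a3 a7 a5 a6 huv1 rfl hne.symm hXt (hy y0 hy0).2
        hy0 hh hlo.le le_rfl ⟨h2, h0⟩
      · intro y k1 k2 k3 k4 k5
        by_contra hcon
        have := k5 (lt_of_le_of_ne k3 (Ne.symm hcon))
        linarith
      · rintro ⟨⟨k1, -⟩, k2, -⟩
        exact absurd (le_min k1 k2) (not_le.2 g1)
    · apply small hDx hc hl hr l0 r1 b0 h1 a2 a3 a7 a5 a6 huv1 rfl hne.symm hXt (hy y0 hy0).2
        hb hy0 le_rfl hhi.le ⟨b1, h2⟩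
      · intro y k1 k2 k3 k4 k5
        exact le_antisymm k4 (k5 k1)
      · rintro ⟨⟨-, k1⟩, -, k2⟩
        exact absurd (max_le k1 k2) (not_le.2 g2)
  · push Not at hX
    have x1 : l < (c u).re := lt_of_le_of_ne c1.1 hX.1.symm
    have x2 : (c u).re < r := lt_of_le_of_ne c1.2.1 hX.2
    apply fin_tb hDx hl hr hb hh l0 r1 b0 h1 (b1.trans h0) a2 a3 a7 huv1 x1 x2 rfl hne.symm
    have d1' : (c u).im = b ∨ (c u).im = h := by
      rcases d1 with e | e | e | e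
      · exact absurd e hX.1
      · exact absurd e hX.2
      · exact Or.inl e
      · exact Or.inr e
    have d2' : (c v).im = b ∨ (c v).im = h := by
      rcases d2 with e | e | e | e
      · exact absurd (hne.trans e) hX.1
      · exact absurd (hne.trans e) hX.2
      · exact Or.inl e
      · exact Or.inr e
    rcases d1' with e | e <;> rcases d2' with e' | e'
    · exact absurd (e.trans e'.symm) him
    · exact Or.inr ⟨e, e'⟩
    · exact Or.inl ⟨e, e'⟩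
    · exact absurd (e.trans e'.symm) him

end main

end Pool.Agent.Y584.LG
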